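import Pool.Agent.X212.Stop.Space

/-!
The unit ball of the stopping time space has a countable weak pi-base.
-/

set_option autoImplicit false

namespace Pool.Agent.Results.MP_66f42e_an.CountablePiBase

open Pool.Agent.X212.Stop Topology Filter

/-- The closed unit ball of a normed space `E` as a subset of `E` with its weak topology. -/
def weakBall (E : Type) [NormedAddCommGroup E] [NormedSpace ℝ E] : Set (WeakSpace ℝ E) :=
  toWeakSpace ℝ E '' Metric.closedBall 0 1

/-- The topological space `B` has a countable pi-base: a countable family of nonempty open sets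
such that every nonempty open set contains a member of the family. -/
def HasCountablePiBase (B : Type) [TopologicalSpace B] : Prop :=
  ∃ 𝒰 : Set (Set B), 𝒰.Countable ∧ (∀ U ∈ 𝒰, IsOpen U ∧ U.Nonempty) ∧
    ∀ V : Set B, IsOpen V → V.Nonempty → ∃ U ∈ 𝒰, U ⊆ V

/-- The closed unit ball of `E` with the relative weak topology has a countable pi-base. -/
def BallHasCountableWeakPiBase (E : Type) [NormedAddCommGroup E] [NormedSpace ℝ E] : Prop :=
  HasCountablePiBase (weakBall E)

/-- Continuous functionals are weakly continuous. -/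
lemma continuous_eval (f : X →L[ℝ] ℝ) :
    Continuous fun y : WeakSpace ℝ X => f ((toWeakSpace ℝ X).symm y) :=
  WeakBilin.eval_continuous (topDualPairing ℝ X).flip f

/-- Weak neighbourhoods. -/
lemma exists_functionals {W : Set (WeakSpace ℝ X)} (hW : IsOpen W) {x : X}
    (hx : toWeakSpace ℝ X x ∈ W) : ∃ I : Finset (X →L[ℝ] ℝ), ∃ ε > 0, ∀ y : X,
      (∀ f ∈ I, |f y - f x| < ε) → toWeakSpace ℝ X y ∈ W := by
  have hW' : ∃ O : Set ((X →L[ℝ] ℝ) → ℝ), IsOpen O ∧
      (fun (y : WeakSpace ℝ X) (f : X →L[ℝ] ℝ) => f ((toWeakSpace ℝ X).symm y)) ⁻¹' O = W :=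
    isOpen_induced_iff.1 hW
  obtain ⟨O, hO, rfl⟩ := hW'
  obtain ⟨I, u, hu, hIu⟩ := isOpen_pi_iff.1 hO _ hx
  have h1 : ∀ f ∈ I, ∀ᶠ r in 𝓝[>] (0 : ℝ), Metric.ball (f x) r ⊆ u f := by
    intro f hf
    obtain ⟨r, hr, hru⟩ := Metric.isOpen_iff.1 (hu f hf).1 (f x) (hu f hf).2
    filter_upwards [Ioo_mem_nhdsGT hr] with s hs
    exact (Metric.ball_subset_ball hs.2.le).trans hru
  have h2 := (I.eventually_all (l := 𝓝[>] (0 : ℝ))
    (p := fun f r => Metric.ball (f x) r ⊆ u f)).2 h1
  obtain ⟨ε, hε, hε0⟩ := (h2.and self_mem_nhdsWithin).exists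
  refine ⟨I, ε, hε0, fun y hy => ?_⟩
  apply hIu
  intro f hf
  apply hε f hf
  rw [Metric.mem_ball, Real.dist_eq]
  exact hy f hf

/-- The members of the pi-base. -/
def nb (j : (Σ T : Finset Nd, T → ℚ) × ℕ) : Set (weakBall X) :=
  {b | ∀ u : j.1.1, |coord u ((toWeakSpace ℝ X).symm b.1) - j.1.2 u| < 1 / (j.2 + 1)}

lemma isOpen_nb (j : (Σ T : Finset Nd, T → ℚ) × ℕ) : IsOpen (nb j) := by
  have : nb j = ⋂ u : j.1.1, {b : weakBall X |
      |coord u ((toWeakSpace ℝ X).symm b.1) - j.1.2 u| < 1 / (j.2 + 1)} := by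
    ext b; simp [nb]
  rw [this]
  refine isOpen_iInter_of_finite fun u => ?_
  refine isOpen_lt ?_ continuous_const
  exact (((continuous_eval (coord u)).comp continuous_subtype_val).sub continuous_const).abs

/-- The closed unit ball of the stopping time space, with its relative weak topology, has a
countable pi-base. -/
theorem result : BallHasCountableWeakPiBase X := by
  classical
  refine ⟨{U | ∃ j, U = nb j ∧ (nb j).Nonempty}, ?_, ?_, ?_⟩
  · refine (Set.countable_range nb).mono ?_
    rintro _ ⟨j, rfl, -⟩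
    exact ⟨j, rfl⟩
  · rintro _ ⟨j, rfl, hj⟩
    exact ⟨isOpen_nb j, hj⟩
  · rintro V hV ⟨b, hbV⟩
    obtain ⟨W, hW, rfl⟩ := isOpen_induced_iff.1 hV
    obtain ⟨x, hx, hxb⟩ := b.2
    have hxW : toWeakSpace ℝ X x ∈ W := by rw [hxb]; exact hbV
    obtain ⟨I, ε, hε, hI⟩ := exists_functionals hW hxW
    have hx1 : ‖x‖ ≤ 1 := by simpa using hx
    -- the majorant
    let φ : Nd → ℝ := fun u => ∑ f ∈ I, |f (e u)|
    let M : ℝ := ∑ f ∈ I, ‖f‖
    have hM0 : 0 ≤ M := Finset.sum_nonneg fun f _ => norm_nonneg f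
    have hφ : ∀ u, 0 ≤ φ u := fun u => Finset.sum_nonneg fun f _ => abs_nonneg _
    have hM : ∀ w, ps φ [] w ≤ M := by
      intro w
      have h := ps_sum I (fun (f : X →L[ℝ] ℝ) u => |f (e u)|) [] w
      have h' : ps φ [] w = _ := h
      rw [h']
      exact Finset.sum_le_sum fun f _ => ps_le_norm f w
    have hfM : ∀ f ∈ I, ‖f‖ ≤ M := fun f hf =>
      Finset.single_le_sum (f := fun f : X →L[ℝ] ℝ => ‖f‖) (fun g _ => norm_nonneg g) hf
    have hfφ : ∀ f ∈ I, ∀ z : Nd →₀ ℝ, |f (emb z)| ≤ ∑ u ∈ z.support, φ u * |z u| := by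
      intro f hf z
      refine (apply_le f z).trans (Finset.sum_le_sum fun u _ => ?_)
      exact mul_le_mul_of_nonneg_right
        (Finset.single_le_sum (f := fun f : X →L[ℝ] ℝ => |f (e u)|)
          (fun g _ => abs_nonneg _) hf) (abs_nonneg _)
    -- a finitely supported approximation in the ball
    obtain ⟨x₀, hx₀, hx₀x⟩ : ∃ x₀ : Nd →₀ ℝ, stNorm x₀ ≤ 1 ∧ M * ‖emb x₀ - x‖ < ε / 4 := by
      let d : ℝ := ε / (8 * (M + 1))
      have hd : 0 < d := by positivity
      obtain ⟨y, hy⟩ := Metric.denseRange_iff.1 denseRange_emb x d hd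
      rw [dist_eq_norm] at hy
      have hy1 : ‖emb y‖ ≤ 1 + d := by
        have h3 : ‖emb y‖ ≤ ‖emb y - x‖ + ‖x‖ := by
          simpa using norm_add_le (emb y - x) x
        rw [norm_sub_rev] at h3
        linarith
      have h4 : 0 < 1 + d := by linarith
      refine ⟨(1 + d)⁻¹ • y, ?_, ?_⟩
      · rw [← norm_emb, map_smul, norm_smul, Real.norm_eq_abs, abs_of_pos (by positivity)]
        rw [inv_mul_le_iff₀ h4]
        linarith
      · have h5 : emb ((1 + d)⁻¹ • y) - x = (emb y - x) + (-(d * (1 + d)⁻¹)) • emb y := by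
          rw [map_smul]
          have h6 : (1 + d)⁻¹ = 1 + (-(d * (1 + d)⁻¹)) := by field_simp; ring
          conv_lhs => rw [h6]
          rw [add_smul, one_smul]
          abel
        have h6 : ‖emb ((1 + d)⁻¹ • y) - x‖ ≤ d + d := by
          rw [h5]
          refine (norm_add_le _ _).trans (add_le_add ?_ ?_)
          · rw [norm_sub_rev]; exact hy.le
          · rw [norm_smul, norm_neg, Real.norm_eq_abs, abs_of_pos (by positivity), mul_assoc]
            have h7 : (1 + d)⁻¹ * ‖emb y‖ ≤ 1 := by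
              rw [inv_mul_le_iff₀ h4]; linarith
            nlinarith
        have h7 : M * ‖emb ((1 + d)⁻¹ • y) - x‖ ≤ M * (d + d) :=
          mul_le_mul_of_nonneg_left h6 hM0
        have h8 : (M + 1) * (d + d) = ε / 4 := by
          simp only [d]; field_simp; ring
        nlinarith
    obtain ⟨x', hx', hx'x₀, T', η, hη, hT'⟩ := core hφ hM x₀ hx₀ (ε := ε / 4) (by positivity)
    -- the parameters of the neighbourhood
    obtain ⟨k, hk⟩ := exists_nat_one_div_lt (show 0 < η / 4 by positivity)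
    have hk0 : (0 : ℝ) < 1 / (k + 1) := by positivity
    have hq : ∀ u : T', ∃ q : ℚ, |x' u - q| < 1 / ((k : ℝ) + 1) := by
      intro u
      obtain ⟨q, hq1, hq2⟩ := exists_rat_btwn (show x' u - 1 / ((k : ℝ) + 1) < x' u by linarith)
      refine ⟨q, ?_⟩
      rw [abs_sub_lt_iff]
      constructor <;> linarith
    choose q hq using hq
    refine ⟨nb (⟨T', q⟩, k), ⟨_, rfl, ?_⟩, ?_⟩
    · refine ⟨⟨toWeakSpace ℝ X (emb x'), ⟨emb x', ?_, rfl⟩⟩, ?_⟩
      · rw [mem_closedBall_zero_iff, norm_emb]; exact hx'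
      · intro u
        show |coord u ((toWeakSpace ℝ X).symm (toWeakSpace ℝ X (emb x'))) - q u| < _
        rw [LinearEquiv.symm_apply_apply, coord_emb]
        exact hq u
    · rintro ⟨_, ⟨b, hb, rfl⟩⟩ hbn
      have hb1 : ‖b‖ ≤ 1 := by simpa using hb
      show toWeakSpace ℝ X b ∈ W
      apply hI
      intro f hf
      -- a finitely supported approximation of `b`
      let r : ℝ := min (η / 2) (ε / (4 * (M + 1)))
      have hr : 0 < r := by positivity
      obtain ⟨y, hy⟩ := Metric.denseRange_iff.1 denseRange_emb b r hr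
      rw [dist_eq_norm] at hy
      have hrη : r ≤ η / 2 := min_le_left _ _
      have hrε : r ≤ ε / (4 * (M + 1)) := min_le_right _ _
      have hy1 : stNorm y ≤ 1 + η := by
        rw [← norm_emb]
        have h3 : ‖emb y‖ ≤ ‖emb y - b‖ + ‖b‖ := by
          simpa using norm_add_le (emb y - b) b
        rw [norm_sub_rev] at h3
        linarith
      have hy2 : ∀ u ∈ T', |y u - x' u| ≤ η := by
        intro u hu
        have h3 : |coord u b - q ⟨u, hu⟩| < 1 / ((k : ℝ) + 1) := hbn ⟨u, hu⟩
        have h4 := hq ⟨u, hu⟩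
        have h5 : |y u - coord u b| ≤ r := by
          rw [← coord_emb u y, ← map_sub]
          refine (abs_coord_le u _).trans ?_
          rw [norm_sub_rev]
          exact hy.le
        have h6 : y u - x' u = (y u - coord u b) + (coord u b - q ⟨u, hu⟩) +
            (q ⟨u, hu⟩ - x' u) := by ring
        rw [h6]
        have h7 := abs_add_three (y u - coord u b) (coord u b - q ⟨u, hu⟩) (q ⟨u, hu⟩ - x' u)
        have h8 : |(q ⟨u, hu⟩ : ℝ) - x' u| < 1 / ((k : ℝ) + 1) := by
          rw [abs_sub_comm]; exact h4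
        linarith
      have hA : |f (emb y) - f (emb x')| ≤ ε / 4 := by
        rw [← map_sub, ← map_sub]
        refine (hfφ f hf _).trans ?_
        simp only [Finsupp.sub_apply]
        exact hT' y hy1 hy2 _
      have hB : |f (emb x') - f (emb x₀)| ≤ ε / 4 := by
        rw [← map_sub, ← map_sub]
        refine (hfφ f hf _).trans ?_
        simp only [Finsupp.sub_apply]
        exact hx'x₀ _
      have hC : |f (emb x₀) - f x| < ε / 4 := by
        rw [← map_sub]
        refine lt_of_le_of_lt ?_ hx₀x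
        exact (f.le_opNorm _).trans (mul_le_mul_of_nonneg_right (hfM f hf) (norm_nonneg _))
      have hD : |f b - f (emb y)| ≤ ε / 4 := by
        rw [← map_sub]
        refine (f.le_opNorm _).trans ?_
        have h3 : ‖f‖ * ‖b - emb y‖ ≤ M * (ε / (4 * (M + 1))) :=
          mul_le_mul (hfM f hf) (hy.le.trans hrε) (norm_nonneg _) hM0
        refine h3.trans ?_
        have h4 : M * (ε / (4 * (M + 1))) = ε / 4 * (M / (M + 1)) := by field_simp
        rw [h4]
        have h5 : M / (M + 1) ≤ 1 := by rw [div_le_one (by linarith)]; linarith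
        nlinarith
      have hsum : f b - f x = (f b - f (emb y)) + (f (emb y) - f (emb x')) +
          (f (emb x') - f (emb x₀)) + (f (emb x₀) - f x) := by ring
      rw [hsum]
      have h9 := abs_add_le ((f b - f (emb y)) + (f (emb y) - f (emb x')) +
        (f (emb x') - f (emb x₀))) (f (emb x₀) - f x)
      have h10 := abs_add_three (f b - f (emb y)) (f (emb y) - f (emb x'))
        (f (emb x') - f (emb x₀))
      linarith

end Pool.Agent.Results.MP_66f42e_an.CountablePiBase
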